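import Pool.Agent.Helper879.ECD.Final

set_option autoImplicit false

/-! For every 2-connected cubic graph `G` (finite, loopless, parallel edges allowed) the line
graph of `G` has an even circuit decomposition.

Outline of the proof. (1) `exists_pm3`: a bridgeless cubic multigraph has a perfect matching `M`
meeting every edge cut of size 3 exactly once. (2) `pack`, `exists_flow`: contracting the
2-factor `G - M` gives a graph without cuts of size 1 or 3, which has a nowhere-zero flow with
values in the Klein four group (base packing of the cycle matroid, then reduction of 2-cuts).
(3) `labels_exist`: choose the flow with the largest number of values (1,1). The edges with value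
(0,1) and those with value (1,0) then form forests of the contracted graph, so that labels on the
2-factor can be matched along them; chords of the circuits of the 2-factor are handled by
a shortest chord. (4) `ecd_of_model`, `ecd_of_cert`: the labels describe the even circuit
decomposition: the circuits of the 2-factor, with detours at the edges of value (1,1), and the
circuits of two families of faces. -/

namespace Pool.Agent.Results.MP_3c630e_co.LineGraphEven

open Pool.Agent.Helper879.ECD

/-- The hypotheses are satisfiable: two vertices joined by three parallel edges. -/
theorem theta_ok : ∃ G : MGraph (Fin 2) (Fin 3), G.IsCubic ∧ G.TwoConnected := by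
  refine ⟨⟨fun _ => s(0, 1), ?_⟩, ?_, ?_, ?_⟩
  · intro e
    rw [Sym2.mk_isDiag_iff]
    decide
  · intro v
    have : {e : Fin 3 | v ∈ s((0 : Fin 2), 1)} = Set.univ := by
      ext e
      simp only [Set.mem_setOf_eq, Set.mem_univ, iff_true, Sym2.mem_iff]
      fin_cases v <;> simp
    show {e : Fin 3 | v ∈ s((0 : Fin 2), 1)}.ncard = 3
    rw [this, Set.ncard_univ]
    simp
  · intro x y
    fin_cases x <;> fin_cases y
    · exact Relation.ReflTransGen.refl
    · exact Relation.ReflTransGen.single ⟨0, rfl⟩
    · exact Relation.ReflTransGen.single ⟨0, Sym2.eq_swap⟩
    · exact Relation.ReflTransGen.refl
  · intro w x y hx hy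
    have : x = y := by
      revert w x y
      decide
    rw [this]

/-- The line graph of every 2-connected cubic graph has an even circuit decomposition. -/
theorem result (V E : Type) [Finite V] [Finite E] (G : MGraph V E) (hcubic : G.IsCubic)
    (h2 : G.TwoConnected) : G.lineGraph.HasEvenCircuitDecomposition :=
  main G hcubic h2

end Pool.Agent.Results.MP_3c630e_co.LineGraphEven
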